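import Pool.Agent.H65.CRG.TL

/-!
Critical zeros in every even degree (`MP_347b49_nt`), row QL: the value of Levinson's constant for
a linear polynomial.
-/

set_option autoImplicit false

open MeasureTheory

namespace Pool.Agent.H75.CRG

open Pool.Agent.H65.CRG
open Pool.Agent.H65.CRZ (cc)

theorem hd_exp (a v : ℝ) : HasDerivAt (fun v => Real.exp (a * v)) (a * Real.exp (a * v)) v := by
  have h1 : HasDerivAt (fun v : ℝ => a * v) a v := by
    simpa using (hasDerivAt_id v).const_mul a
  have h2 := h1.exp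
  rw [mul_comm] at h2
  exact h2

theorem exp_cont (a : ℝ) : Continuous fun v : ℝ => Real.exp (a * v) :=
  Real.continuous_exp.comp (continuous_const.mul continuous_id)

/-- the integral of the exponential times a quadratic polynomial -/
theorem int_quad (a p q r : ℝ) (ha : a ≠ 0) :
    ∫ v in (0 : ℝ)..1, (p + q * v + r * v ^ 2) * Real.exp (a * v) =
      p * ((Real.exp a - 1) / a) + q * ((Real.exp a * a - (Real.exp a - 1)) / a ^ 2) +
        r * ((Real.exp a * a ^ 2 - 2 * (Real.exp a * a - (Real.exp a - 1))) / a ^ 3) := by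
  have hF : ∀ v ∈ Set.uIcc (0 : ℝ) 1, HasDerivAt (fun v => (p / a + q * (v / a - 1 / a ^ 2) +
      r * (v ^ 2 / a - 2 * v / a ^ 2 + 2 / a ^ 3)) * Real.exp (a * v))
      ((p + q * v + r * v ^ 2) * Real.exp (a * v)) v := by
    intro v _
    have h1 : HasDerivAt (fun v : ℝ => p / a + q * (v / a - 1 / a ^ 2) +
        r * (v ^ 2 / a - 2 * v / a ^ 2 + 2 / a ^ 3)) (q * (1 / a) +
        r * (2 * v / a - 2 / a ^ 2)) v := by
      have e1 : HasDerivAt (fun v : ℝ => v / a - 1 / a ^ 2) (1 / a) v :=
        ((hasDerivAt_id v).div_const a).sub_const _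
      have e2 : HasDerivAt (fun v : ℝ => v ^ 2 / a - 2 * v / a ^ 2 + 2 / a ^ 3)
          (2 * v / a - 2 / a ^ 2) v := by
        have g1 : HasDerivAt (fun v : ℝ => v ^ 2 / a) (2 * v / a) v := by
          have := (hasDerivAt_pow 2 v).div_const a
          simpa using this
        have g2 : HasDerivAt (fun v : ℝ => 2 * v / a ^ 2) (2 / a ^ 2) v := by
          have := ((hasDerivAt_id v).const_mul 2).div_const (a ^ 2)
          simpa using this
        exact (g1.sub g2).add_const _
      exact ((e1.const_mul q).const_add (p / a)).add (e2.const_mul r)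
    have h2 := h1.mul (hd_exp a v)
    have e : (q * (1 / a) + r * (2 * v / a - 2 / a ^ 2)) * Real.exp (a * v) +
        (p / a + q * (v / a - 1 / a ^ 2) + r * (v ^ 2 / a - 2 * v / a ^ 2 + 2 / a ^ 3)) *
          (a * Real.exp (a * v)) = (p + q * v + r * v ^ 2) * Real.exp (a * v) := by
      field_simp
      ring
    rw [e] at h2
    exact h2
  have hc : IntervalIntegrable (fun v => (p + q * v + r * v ^ 2) * Real.exp (a * v)) volume 0 1 := by
    refine Continuous.intervalIntegrable ?_ _ _
    exact ((continuous_const.add (continuous_const.mul continuous_id)).add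
      (continuous_const.mul (continuous_id.pow 2))).mul (exp_cont a)
  rw [intervalIntegral.integral_eq_sub_of_hasDerivAt hF hc]
  simp only [mul_one, mul_zero, Real.exp_zero]
  field_simp
  ring

theorem pm_one (m : ℝ) (y : ℝ) : pm 1 (fun _ => m) y = m * y := by
  unfold pm
  simp

theorem Qm_lin (lam : ℝ) (h2 : lam < 2) (v : ℝ) :
    Qm 1 (fun _ => lam / (1 - lam / 2)) v = 1 - lam * v := by
  unfold Qm
  rw [pm_one, pm_one]
  have h : (1 - lam / 2) ≠ 0 := by
    have : 0 < 1 - lam / 2 := by linarith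
    exact this.ne'
  have h' : 2 - lam ≠ 0 := by
    have : 0 < 2 - lam := by linarith
    exact this.ne'
  have e1 : 1 + lam / (1 - lam / 2) * (1 / 2) = 1 / (1 - lam / 2) := by
    field_simp
    ring
  rw [e1]
  field_simp
  ring

theorem gQ_lin (lam R : ℝ) (h2 : lam < 2) :
    gQ 1 (fun _ => lam / (1 - lam / 2)) R = fun v => Real.exp (R * v) * (1 - lam * v) := by
  funext v
  unfold gQ
  rw [Qm_lin lam h2 v]

theorem dgQ_lin (lam R v : ℝ) :
    deriv (fun v => Real.exp (R * v) * (1 - lam * v)) v =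
      Real.exp (R * v) * (R * (1 - lam * v) - lam) := by
  have h1 : HasDerivAt (fun v : ℝ => 1 - lam * v) (-lam) v := by
    have := ((hasDerivAt_id v).const_mul lam).const_sub 1
    simpa using this
  have h2 := (hd_exp R v).mul h1
  rw [show (fun v => Real.exp (R * v) * (1 - lam * v)) =
    (fun v => Real.exp (R * v)) * (fun v => 1 - lam * v) from rfl, h2.deriv]
  ring

theorem exp_sq (R v : ℝ) : Real.exp (R * v) ^ 2 = Real.exp (2 * R * v) := by
  rw [← Real.exp_nat_mul]
  congr 1
  push_cast
  ring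

theorem pf_QL (_h1 : T_QI) : T_QL := by
  intro R lam x hR hx _ h2
  unfold cQ cc
  rw [gQ_lin lam R h2]
  have ha : (2 * R) ≠ 0 := by positivity
  have i1 : ∫ v in (0 : ℝ)..1, (Real.exp (R * v) * (1 - lam * v)) ^ 2 =
      ∫ v in (0 : ℝ)..1, (1 + (-2 * lam) * v + lam ^ 2 * v ^ 2) * Real.exp (2 * R * v) := by
    refine intervalIntegral.integral_congr fun v _ => ?_
    rw [mul_pow, exp_sq]
    ring
  have i2 : ∫ v in (0 : ℝ)..1, deriv (fun v => Real.exp (R * v) * (1 - lam * v)) v ^ 2 =
      ∫ v in (0 : ℝ)..1, ((R - lam) ^ 2 + (-2 * (R - lam) * (R * lam)) * v +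
        (R * lam) ^ 2 * v ^ 2) * Real.exp (2 * R * v) := by
    refine intervalIntegral.integral_congr fun v _ => ?_
    rw [dgQ_lin, mul_pow, exp_sq]
    ring
  rw [i1, i2, int_quad _ _ _ _ ha, int_quad _ _ _ _ ha]
  have e3 : (Real.exp (R * 1) * (1 - lam * 1)) ^ 2 = Real.exp (2 * R) * (1 - lam) ^ 2 := by
    rw [mul_pow, exp_sq]
    ring_nf
  rw [e3]
  generalize Real.exp (2 * R) = E
  simp only []
  field_simp
  ring

end Pool.Agent.H75.CRG
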